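import Pool.Agent.Q45.Bes.Fourier2

/-!
MP_6fe4ed_an: the number of Fourier critical points of `f_{ν,n}` is not always `s` for
`ν ∈ (n-2s-2, n-2s-1)`: for `n = 2`, `s = 1` and every `ν` in `(-101/100, -1)` there is none.
-/

namespace Pool.Agent.Results.MP_6fe4ed_an.NoCriticalPoints

open Q45.Bes

theorem result :
    (∀ ν : ℝ, -(101 / 100) < ν → ν < -1 → {c : ℝ | IsFourierCritical (f 2 ν) c} = ∅) ∧
    ¬ (∀ n s : ℕ, ∀ ν : ℝ, (n : ℝ) - 2 * s - 2 < ν → ν < (n : ℝ) - 2 * s - 1 →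
      {c : ℝ | IsFourierCritical (f n ν) c}.encard = s ∧
      {x : ℝ | 0 < x ∧ f n ν x = 0}.encard = 1) := by
  have key : ∀ ν : ℝ, -(101 / 100) < ν → ν < -1 → {c : ℝ | IsFourierCritical (f 2 ν) c} = ∅ := by
    intro ν h1 h2
    ext c
    simpa using no_critical_two h1 h2 c
  refine ⟨key, fun h => ?_⟩
  have h3 := (h 2 1 (-(201 / 200)) (by norm_num) (by norm_num)).1
  rw [key _ (by norm_num) (by norm_num)] at h3
  simp at h3

end Pool.Agent.Results.MP_6fe4ed_an.NoCriticalPoints
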